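import Mathlib
set_option autoImplicit false
set_option linter.unusedSectionVars false
open scoped ENNReal InnerProductSpace Topology
open Module ContinuousLinearMap

namespace Pool.Agent.Helper872.Sch

universe u v
variable {H : Type u} [NormedAddCommGroup H] [InnerProductSpace ℂ H] [CompleteSpace H]
  {K : Type v} [NormedAddCommGroup K] [InnerProductSpace ℂ K] [CompleteSpace K]

/-- `b` diagonalises `a† a`. -/
def SingBasis {ι : Type*} (b : HilbertBasis ι ℂ H) (a : H →L[ℂ] K) : Prop :=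
  ∀ i, (adjoint a) (a (b i)) = ((‖a (b i)‖ ^ 2 : ℝ) : ℂ) • b i

theorem exists_eigenbasis {T : H →L[ℂ] H} (hT : IsCompactOperator T)
    (hs : (T : H →ₗ[ℂ] H).IsSymmetric) :
    ∃ (ι : Type u) (b : HilbertBasis ι ℂ H), ∀ i, ∃ μ : ℂ, T (b i) = μ • b i := by
  have hE := fun μ : ℂ => exists_hilbertBasis ℂ (End.eigenspace (T : End ℂ H) μ)
  choose w b hb using hE
  have hfam := hs.orthogonalFamily_eigenspaces
  have hon : Orthonormal ℂ (fun a : Σ μ : ℂ, w μ => ((b a.1 a.2 : End.eigenspace (T : End ℂ H) a.1) : H)) :=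
    hfam.orthonormal_sigma_orthonormal (fun μ => (b μ).orthonormal)
  have hsp : (Submodule.span ℂ (Set.range (fun a : Σ μ : ℂ, w μ =>
      ((b a.1 a.2 : End.eigenspace (T : End ℂ H) a.1) : H))))ᗮ = ⊥ := by
    rw [eq_bot_iff, ← ContinuousLinearMap.orthogonalComplement_iSup_eigenspaces_eq_bot hT hs]
    intro x hx
    rw [Submodule.mem_orthogonal] at hx
    rw [Submodule.mem_orthogonal]
    intro y hy
    refine Submodule.iSup_induction _ (motive := fun y => ⟪y, x⟫_ℂ = 0) hy ?_ (inner_zero_left _) ?_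
    · intro μ y hy
      have h1 := (b μ).hasSum_repr ⟨y, hy⟩
      have h2 : HasSum (fun i => (((b μ).repr ⟨y, hy⟩ i • b μ i : End.eigenspace (T : End ℂ H) μ) : H)) y :=
        h1.map (End.eigenspace (T : End ℂ H) μ).subtype continuous_subtype_val
      have h3 : HasSum (fun i => ⟪(((b μ).repr ⟨y, hy⟩ i • b μ i : End.eigenspace (T : End ℂ H) μ) : H), x⟫_ℂ)
          ⟪y, x⟫_ℂ := by
        have := h2.mapL (innerSL ℂ x)
        have h4 := this.star
        simpa [mul_comm] using h4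
      have h5 : (fun i => ⟪(((b μ).repr ⟨y, hy⟩ i • b μ i : End.eigenspace (T : End ℂ H) μ) : H), x⟫_ℂ)
          = fun _ => 0 := by
        ext i
        rw [Submodule.coe_smul, inner_smul_left, hx _ (Submodule.subset_span ⟨⟨μ, i⟩, rfl⟩),
          mul_zero]
      rw [h5] at h3
      exact h3.unique hasSum_zero
    · intro y z hy hz
      rw [inner_add_left, hy, hz, add_zero]
  refine ⟨_, HilbertBasis.mkOfOrthogonalEqBot hon hsp, ?_⟩
  rintro ⟨μ, i⟩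
  refine ⟨μ, ?_⟩
  rw [HilbertBasis.coe_mkOfOrthogonalEqBot]
  exact End.mem_eigenspace_iff.1 (b μ i).2

theorem isSymm_adj (a : H →L[ℂ] K) : ((adjoint a ∘L a : H →L[ℂ] H) : H →ₗ[ℂ] H).IsSymmetric := by
  intro x y
  simp only [ContinuousLinearMap.coe_coe, ContinuousLinearMap.comp_apply]
  rw [adjoint_inner_left, adjoint_inner_right]

theorem exists_singBasis (a : H →L[ℂ] K) (hc : IsCompactOperator (adjoint a ∘L a)) :
    ∃ (ι : Type u) (b : HilbertBasis ι ℂ H), SingBasis b a := by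
  obtain ⟨ι, b, hb⟩ := exists_eigenbasis hc (isSymm_adj a)
  refine ⟨ι, b, fun i => ?_⟩
  obtain ⟨μ, hμ⟩ := hb i
  have h1 : (adjoint a) (a (b i)) = μ • b i := hμ
  have h2 : ⟪b i, (adjoint a) (a (b i))⟫_ℂ = μ := by
    rw [h1, inner_smul_right, inner_self_eq_norm_sq_to_K, b.orthonormal.1 i]
    simp
  rw [adjoint_inner_right, inner_self_eq_norm_sq_to_K] at h2
  rw [h1, ← h2]
  push_cast
  rfl

/-- Parseval's identity -/
theorem parseval {ι : Type*} (b : HilbertBasis ι ℂ H) (x : H) :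
    ∑' i, ‖⟪b i, x⟫_ℂ‖ₑ ^ 2 = ‖x‖ₑ ^ 2 := by
  have h := b.hasSum_inner_mul_inner x x
  have h2 : HasSum (fun i => ‖⟪b i, x⟫_ℂ‖ ^ 2) (‖x‖ ^ 2) := by
    have h3 := (Complex.hasSum_re h)
    have e1 : (fun i => (⟪x, b i⟫_ℂ * ⟪b i, x⟫_ℂ).re) = fun i => ‖⟪b i, x⟫_ℂ‖ ^ 2 := by
      ext i
      rw [← inner_conj_symm x (b i), Complex.conj_mul']
      norm_cast
    have e2 : (⟪x, x⟫_ℂ).re = ‖x‖ ^ 2 := by
      rw [inner_self_eq_norm_sq_to_K]
      norm_cast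
    rw [e1, e2] at h3
    exact h3
  have h4 : ∀ y : ℂ, ‖y‖ₑ ^ 2 = ENNReal.ofReal (‖y‖ ^ 2) := fun y => by
    rw [ENNReal.ofReal_pow (norm_nonneg _), ofReal_norm]
  simp_rw [h4]
  rw [← ENNReal.ofReal_tsum_of_nonneg (fun i => by positivity) h2.summable, h2.tsum_eq,
    ENNReal.ofReal_pow (norm_nonneg _), ofReal_norm]

/-- Parseval's identity with respect to a singular basis -/
theorem sing_parseval {ι : Type*} {b : HilbertBasis ι ℂ H} {a : H →L[ℂ] K} (hb : SingBasis b a)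
    (x : H) : ∑' i, ‖⟪b i, x⟫_ℂ‖ₑ ^ 2 * ‖a (b i)‖ₑ ^ 2 = ‖a x‖ₑ ^ 2 := by
  have h := b.hasSum_inner_mul_inner x (adjoint a (a x))
  have h2 : HasSum (fun i => ‖⟪b i, x⟫_ℂ‖ ^ 2 * ‖a (b i)‖ ^ 2) (‖a x‖ ^ 2) := by
    have h3 := (Complex.hasSum_re h)
    have e1 : (fun i => (⟪x, b i⟫_ℂ * ⟪b i, (adjoint a) (a x)⟫_ℂ).re)
        = fun i => ‖⟪b i, x⟫_ℂ‖ ^ 2 * ‖a (b i)‖ ^ 2 := by
      ext i
      have h5 : ⟪b i, (adjoint a) (a x)⟫_ℂ = ((‖a (b i)‖ ^ 2 : ℝ) : ℂ) * ⟪b i, x⟫_ℂ := by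
        rw [adjoint_inner_right, ← adjoint_inner_left, hb i, inner_smul_left, Complex.conj_ofReal]
      rw [h5, ← inner_conj_symm x (b i)]
      have : (starRingEnd ℂ) ⟪b i, x⟫_ℂ * (((‖a (b i)‖ ^ 2 : ℝ) : ℂ) * ⟪b i, x⟫_ℂ)
          = ((‖⟪b i, x⟫_ℂ‖ ^ 2 * ‖a (b i)‖ ^ 2 : ℝ) : ℂ) := by
        rw [mul_left_comm, Complex.conj_mul']
        push_cast
        ring
      rw [this, Complex.ofReal_re]
    have e2 : (⟪x, (adjoint a) (a x)⟫_ℂ).re = ‖a x‖ ^ 2 := by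
      rw [adjoint_inner_right, inner_self_eq_norm_sq_to_K]
      norm_cast
    rw [e1, e2] at h3
    exact h3
  have h4 : ∀ i, ‖⟪b i, x⟫_ℂ‖ₑ ^ 2 * ‖a (b i)‖ₑ ^ 2
      = ENNReal.ofReal (‖⟪b i, x⟫_ℂ‖ ^ 2 * ‖a (b i)‖ ^ 2) := fun i => by
    rw [ENNReal.ofReal_mul (by positivity), ENNReal.ofReal_pow (norm_nonneg _),
      ENNReal.ofReal_pow (norm_nonneg _), ofReal_norm, ofReal_norm]
  simp_rw [h4]
  rw [← ENNReal.ofReal_tsum_of_nonneg (fun i => by positivity) h2.summable, h2.tsum_eq,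
    ENNReal.ofReal_pow (norm_nonneg _), ofReal_norm]

/-- For a compact operator `a`, the trace of `(a† a)^(p/2)`: the sum of the powers `μ^(p/2)` of
the eigenvalues `μ` of `a† a`, counted with multiplicity. -/
noncomputable def trPow (p : ℝ) (a : H →L[ℂ] K) : ℝ≥0∞ :=
  ∑' μ : NNReal, (finrank ℂ (End.eigenspace ((adjoint a ∘L a : H →L[ℂ] H) : End ℂ H)
    ((μ : ℝ) : ℂ)) : ℝ≥0∞) * (μ : ℝ≥0∞) ^ (p / 2)

theorem eq_zero_of_inner {ι : Type*} (b : HilbertBasis ι ℂ H) {x : H}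
    (h : ∀ i, ⟪b i, x⟫_ℂ = 0) : x = 0 := by
  have h1 := parseval b x
  simp only [h] at h1
  have h2 : ‖x‖ₑ = 0 := by
    rw [← pow_eq_zero_iff (two_ne_zero), ← h1]
    simp
  simpa using h2

theorem ext_basis {ι : Type*} (b : HilbertBasis ι ℂ H) {x y : H}
    (h : ∀ i, ⟪b i, x⟫_ℂ = ⟪b i, y⟫_ℂ) : x = y := by
  rw [← sub_eq_zero]
  apply eq_zero_of_inner b
  intro i
  rw [inner_sub_right, h i, sub_self]

theorem enorm_rpow (x : K) (p : ℝ) :
    ‖x‖ₑ ^ p = (((‖x‖₊ ^ 2 : NNReal) : ℝ≥0∞)) ^ (p / 2) := by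
  rw [ENNReal.coe_pow, ← ENNReal.rpow_natCast, ← ENNReal.rpow_mul]
  congr 1
  push_cast
  ring

theorem trPow_eq {ι : Type*} {b : HilbertBasis ι ℂ H} {a : H →L[ℂ] K} (hb : SingBasis b a)
    (hc : IsCompactOperator (adjoint a ∘L a)) {p : ℝ} (hp : 0 < p) :
    trPow p a = ∑' i, ‖a (b i)‖ₑ ^ p := by
  let f : ι → NNReal := fun i => ‖a (b i)‖₊ ^ 2
  let g : NNReal → ℝ≥0∞ := fun μ => (μ : ℝ≥0∞) ^ (p / 2)
  have h1 : ∑' i, ‖a (b i)‖ₑ ^ p = ∑' i, g (f i) := by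
    congr 1
    ext i
    exact enorm_rpow _ _
  have h2 : ∑' i, g (f i) = ∑' μ : NNReal, ∑' (i : {i // f i = μ}), g (f i) := by
    rw [← (Equiv.sigmaFiberEquiv f).tsum_eq, ENNReal.tsum_sigma']
    rfl
  rw [h1, h2, trPow]
  congr 1
  ext μ
  have h3 : ∑' (i : {i // f i = μ}), g (f i) = ∑' (_ : {i // f i = μ}), g μ := by
    congr 1
    ext i
    rw [i.2]
  rw [h3, ENNReal.tsum_const]
  by_cases hμ : μ = 0
  · subst hμ
    have : g 0 = 0 := by
      simp only [g, ENNReal.coe_zero]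
      exact ENNReal.zero_rpow_of_pos (by positivity)
    simp only [ENNReal.coe_zero, ENNReal.zero_rpow_of_pos (show 0 < p / 2 by positivity), mul_zero,
      this]
  · have hμ' : ((μ : ℝ) : ℂ) ≠ 0 := by
      simpa using hμ
    let E := End.eigenspace ((adjoint a ∘L a : H →L[ℂ] H) : End ℂ H) ((μ : ℝ) : ℂ)
    have hfin : FiniteDimensional ℂ E :=
      ContinuousLinearMap.finite_dimensional_eigenspace hc _ hμ'
    have hf : ∀ i, ((‖a (b i)‖ ^ 2 : ℝ) : ℂ) = ((f i : ℝ) : ℂ) := fun i => by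
      simp [f]
    have hmem : ∀ i : {i // f i = μ}, b i ∈ E := by
      rintro ⟨i, hi⟩
      rw [End.mem_eigenspace_iff]
      have := hb i
      rw [hf i, hi] at this
      exact this
    let v : {i // f i = μ} → E := fun i => ⟨b i, hmem i⟩
    have hli : LinearIndependent ℂ v := by
      have h4 : LinearIndependent ℂ (fun i : {i // f i = μ} => b i) :=
        b.orthonormal.linearIndependent.comp _ Subtype.val_injective
      exact LinearIndependent.of_comp E.subtype h4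
    have hfi : Finite {i // f i = μ} := hli.finite
    have hfi' : Fintype {i // f i = μ} := Fintype.ofFinite _
    have hspan : ⊤ ≤ Submodule.span ℂ (Set.range v) := by
      rintro ⟨x, hx⟩ -
      have hx' : (adjoint a) (a x) = ((μ : ℝ) : ℂ) • x := End.mem_eigenspace_iff.1 hx
      have h5 : x = ∑ i : {i // f i = μ}, ⟪b i, x⟫_ℂ • b i := by
        apply ext_basis b
        intro j
        rw [inner_sum]
        by_cases hj : f j = μ
        · rw [Finset.sum_eq_single ⟨j, hj⟩]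
          · rw [inner_smul_right, inner_self_eq_norm_sq_to_K, b.orthonormal.1]
            simp
          · intro i _ hij
            rw [inner_smul_right, b.orthonormal.2, mul_zero]
            intro h
            exact hij (Subtype.ext h.symm)
          · intro h
            exact absurd (Finset.mem_univ _) h
        · rw [Finset.sum_eq_zero]
          · have h6 : ⟪b j, (adjoint a) (a x)⟫_ℂ = ((f j : ℝ) : ℂ) * ⟪b j, x⟫_ℂ := by
              rw [adjoint_inner_right, ← adjoint_inner_left, hb j, hf j, inner_smul_left,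
                Complex.conj_ofReal]
            rw [hx', inner_smul_right] at h6
            have h7 : (((μ : ℝ) : ℂ) - ((f j : ℝ) : ℂ)) * ⟪b j, x⟫_ℂ = 0 := by
              rw [sub_mul, h6, sub_self]
            rcases mul_eq_zero.1 h7 with h8 | h8
            · exfalso
              apply hj
              have h9 := sub_eq_zero.1 h8
              exact_mod_cast h9.symm
            · exact h8
          · intro i _
            rw [inner_smul_right, b.orthonormal.2, mul_zero]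
            intro h
            exact hj (h ▸ i.2)
      have h6 : (⟨x, hx⟩ : E) = ∑ i : {i // f i = μ}, ⟪b i, x⟫_ℂ • v i := by
        apply Subtype.ext
        rw [Submodule.coe_sum]
        exact h5
      rw [h6]
      exact Submodule.sum_mem _ fun i _ => Submodule.smul_mem _ _ (Submodule.subset_span ⟨i, rfl⟩)
    have h7 := finrank_eq_nat_card_basis (Basis.mk hli hspan)
    change (finrank ℂ E : ℝ≥0∞) * g μ = _
    rw [h7, ENat.card_eq_coe_natCard]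
    rfl

theorem trPow_adjoint (a : H →L[ℂ] K) {p : ℝ} (hp : 0 < p) :
    trPow p (adjoint a) = trPow p a := by
  unfold trPow
  congr 1
  ext μ
  by_cases hμ : μ = 0
  · subst hμ
    simp only [ENNReal.coe_zero, ENNReal.zero_rpow_of_pos (show 0 < p / 2 by positivity), mul_zero]
  · have hμ' : ((μ : ℝ) : ℂ) ≠ 0 := by
      simpa using hμ
    congr 2
    symm
    refine LinearEquiv.finrank_eq
      (M := End.eigenspace ((adjoint a ∘L a : H →L[ℂ] H) : End ℂ H) ((μ : ℝ) : ℂ))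
      (N := End.eigenspace ((adjoint (adjoint a) ∘L adjoint a : K →L[ℂ] K) : End ℂ K)
        ((μ : ℝ) : ℂ)) ?_
    have e1 : ∀ x : H, x ∈ End.eigenspace ((adjoint a ∘L a : H →L[ℂ] H) : End ℂ H) ((μ : ℝ) : ℂ) ↔
        (adjoint a) (a x) = ((μ : ℝ) : ℂ) • x := fun x => End.mem_eigenspace_iff
    have e2 : ∀ y : K, y ∈ End.eigenspace ((adjoint (adjoint a) ∘L adjoint a : K →L[ℂ] K) : End ℂ K)
        ((μ : ℝ) : ℂ) ↔ a ((adjoint a) y) = ((μ : ℝ) : ℂ) • y := fun y => by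
      rw [adjoint_adjoint]
      exact End.mem_eigenspace_iff
    refine LinearEquiv.ofLinearMap
      (((a : H →ₗ[ℂ] K).domRestrict _).codRestrict _ ?_)
      (((((μ : ℝ) : ℂ)⁻¹ • (adjoint a : K →ₗ[ℂ] H)).domRestrict _).codRestrict _ ?_) ?_ ?_
    · rintro ⟨x, hx⟩
      rw [e1] at hx
      rw [e2]
      simp only [LinearMap.domRestrict_apply, ContinuousLinearMap.coe_coe, hx, map_smul]
    · rintro ⟨y, hy⟩
      rw [e2] at hy
      rw [e1]
      simp only [LinearMap.domRestrict_apply, LinearMap.smul_apply, ContinuousLinearMap.coe_coe,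
        map_smul, hy]
      rw [smul_comm]
    · ext ⟨y, hy⟩
      rw [e2] at hy
      simp only [LinearMap.comp_apply, LinearMap.codRestrict_apply, LinearMap.domRestrict_apply,
        LinearMap.smul_apply, ContinuousLinearMap.coe_coe, map_smul, hy, LinearMap.id_apply,
        smul_smul, inv_mul_cancel₀ hμ', one_smul]
    · ext ⟨x, hx⟩
      rw [e1] at hx
      simp only [LinearMap.comp_apply, LinearMap.codRestrict_apply, LinearMap.domRestrict_apply,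
        LinearMap.smul_apply, ContinuousLinearMap.coe_coe, hx, LinearMap.id_apply,
        smul_smul, inv_mul_cancel₀ hμ', one_smul]

theorem jensen_ge {ι : Type*} {w x : ι → ℝ≥0∞} (hw : ∑' i, w i ≤ 1) {q : ℝ} (hq : 1 ≤ q) :
    (∑' i, w i * x i) ^ q ≤ ∑' i, w i * x i ^ q := by
  have hq0 : 0 < q := lt_of_lt_of_le one_pos hq
  have h1 : ∑' i, w i * x i ≤ (∑' i, w i * x i ^ q) ^ q⁻¹ := by
    rw [ENNReal.tsum_eq_iSup_sum]
    apply iSup_le
    intro s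
    refine (ENNReal.inner_le_weight_mul_Lp_of_nonneg s hq w x).trans ?_
    have h2 : (∑ i ∈ s, w i) ^ (1 - q⁻¹) ≤ 1 := by
      apply ENNReal.rpow_le_one
      · exact (ENNReal.sum_le_tsum s).trans hw
      · rw [sub_nonneg]
        exact inv_le_one_of_one_le₀ hq
    calc (∑ i ∈ s, w i) ^ (1 - q⁻¹) * (∑ i ∈ s, w i * x i ^ q) ^ q⁻¹
        ≤ 1 * (∑' i, w i * x i ^ q) ^ q⁻¹ := by
          gcongr
          exact ENNReal.sum_le_tsum s
      _ = _ := one_mul _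
  calc (∑' i, w i * x i) ^ q ≤ ((∑' i, w i * x i ^ q) ^ q⁻¹) ^ q := by gcongr
    _ = _ := by rw [← ENNReal.rpow_mul, inv_mul_cancel₀ hq0.ne', ENNReal.rpow_one]

theorem jensen_le {ι : Type*} {w x : ι → ℝ≥0∞} (hw : ∑' i, w i ≤ 1) {q : ℝ} (hq0 : 0 < q)
    (hq : q ≤ 1) : ∑' i, w i * x i ^ q ≤ (∑' i, w i * x i) ^ q := by
  have h1 := jensen_ge (x := fun i => x i ^ q) hw (q := q⁻¹) (by rw [one_le_inv₀ hq0]; exact hq)
  have h2 : ∀ i, (x i ^ q) ^ q⁻¹ = x i := fun i => by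
    rw [← ENNReal.rpow_mul, mul_inv_cancel₀ hq0.ne', ENNReal.rpow_one]
  simp only [h2] at h1
  calc ∑' i, w i * x i ^ q = ((∑' i, w i * x i ^ q) ^ q⁻¹) ^ q := by
        rw [← ENNReal.rpow_mul, inv_mul_cancel₀ hq0.ne', ENNReal.rpow_one]
    _ ≤ _ := by gcongr


theorem enorm_inner_symm (x y : H) : ‖⟪x, y⟫_ℂ‖ₑ = ‖⟪y, x⟫_ℂ‖ₑ := by
  rw [← ofReal_norm, ← ofReal_norm, norm_inner_symm]

theorem bessel {κ : Type*} {g : κ → H} (hg : Orthonormal ℂ g) (x : H) :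
    ∑' j, ‖⟪g j, x⟫_ℂ‖ₑ ^ 2 ≤ ‖x‖ₑ ^ 2 := by
  rw [ENNReal.tsum_eq_iSup_sum]
  apply iSup_le
  intro s
  have h := hg.sum_inner_products_le x (s := s)
  have h4 : ∀ y : ℂ, ‖y‖ₑ ^ 2 = ENNReal.ofReal (‖y‖ ^ 2) := fun y => by
    rw [ENNReal.ofReal_pow (norm_nonneg _), ofReal_norm]
  simp_rw [h4]
  rw [← ENNReal.ofReal_sum_of_nonneg (fun i _ => by positivity)]
  rw [← ofReal_norm, ← ENNReal.ofReal_pow (norm_nonneg _)]
  exact ENNReal.ofReal_le_ofReal h

theorem enorm_eq_one {κ : Type*} {g : κ → H} (hg : Orthonormal ℂ g) (j : κ) : ‖g j‖ₑ = 1 := by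
  rw [← ofReal_norm, hg.1 j, ENNReal.ofReal_one]

theorem pow_eq_jensen {ι : Type*} {b : HilbertBasis ι ℂ H} {a : H →L[ℂ] K} (hb : SingBasis b a)
    (x : H) (p : ℝ) :
    ‖a x‖ₑ ^ p = (∑' i, ‖⟪b i, x⟫_ℂ‖ₑ ^ 2 * ‖a (b i)‖ₑ ^ 2) ^ (p / 2) := by
  rw [sing_parseval hb, ← ENNReal.rpow_natCast, ← ENNReal.rpow_mul]
  congr 1
  push_cast
  ring

theorem sq_rpow (t : ℝ≥0∞) (p : ℝ) : (t ^ 2) ^ (p / 2) = t ^ p := by
  rw [← ENNReal.rpow_natCast, ← ENNReal.rpow_mul]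
  congr 1
  push_cast
  ring

theorem sum_le_trPow {κ : Type*} {g : κ → H} (hg : Orthonormal ℂ g) {a : H →L[ℂ] K}
    (hc : IsCompactOperator (adjoint a ∘L a)) {p : ℝ} (hp : 2 ≤ p) :
    ∑' j, ‖a (g j)‖ₑ ^ p ≤ trPow p a := by
  obtain ⟨ι, b, hb⟩ := exists_singBasis a hc
  rw [trPow_eq hb hc (by linarith)]
  calc ∑' j, ‖a (g j)‖ₑ ^ p
      ≤ ∑' j, ∑' i, ‖⟪b i, g j⟫_ℂ‖ₑ ^ 2 * ‖a (b i)‖ₑ ^ p := by
        refine ENNReal.tsum_le_tsum fun j => ?_
        rw [pow_eq_jensen hb]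
        refine (jensen_ge (w := fun i => ‖⟪b i, g j⟫_ℂ‖ₑ ^ 2) ?_ (by linarith)).trans ?_
        · rw [parseval, enorm_eq_one hg, one_pow]
        · simp only [sq_rpow, le_refl]
    _ = ∑' i, (∑' j, ‖⟪g j, b i⟫_ℂ‖ₑ ^ 2) * ‖a (b i)‖ₑ ^ p := by
        rw [ENNReal.tsum_comm]
        congr 1
        ext i
        rw [← ENNReal.tsum_mul_right]
        congr 1
        ext j
        rw [enorm_inner_symm]
    _ ≤ ∑' i, 1 * ‖a (b i)‖ₑ ^ p := by
        refine ENNReal.tsum_le_tsum fun i => ?_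
        gcongr
        refine (bessel hg _).trans ?_
        rw [enorm_eq_one b.orthonormal, one_pow]
    _ = _ := by simp only [one_mul]

/-- the termwise inequality for `p ≤ 2` -/
theorem term_le {ι : Type*} {b : HilbertBasis ι ℂ H} {a : H →L[ℂ] K} (hb : SingBasis b a)
    {x : H} (hx : ‖x‖ = 1) {p : ℝ} (hp0 : 0 < p) (hp : p ≤ 2) :
    ∑' i, ‖⟪b i, x⟫_ℂ‖ₑ ^ 2 * ‖a (b i)‖ₑ ^ p ≤ ‖a x‖ₑ ^ p := by
  rw [pow_eq_jensen hb]
  refine le_trans ?_ (jensen_le (w := fun i => ‖⟪b i, x⟫_ℂ‖ₑ ^ 2) ?_ (by linarith) (by linarith))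
  · simp only [sq_rpow, le_refl]
  · rw [parseval, ← ofReal_norm, hx, ENNReal.ofReal_one, one_pow]

theorem trPow_eq_double {ι κ : Type*} {b : HilbertBasis ι ℂ H} (g : HilbertBasis κ ℂ H)
    {a : H →L[ℂ] K} (hb : SingBasis b a) (hc : IsCompactOperator (adjoint a ∘L a))
    {p : ℝ} (hp0 : 0 < p) :
    trPow p a = ∑' j, ∑' i, ‖⟪b i, g j⟫_ℂ‖ₑ ^ 2 * ‖a (b i)‖ₑ ^ p := by
  rw [trPow_eq hb hc hp0, ENNReal.tsum_comm]
  congr 1
  ext i
  rw [ENNReal.tsum_mul_right]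
  have : ∑' j, ‖⟪b i, g j⟫_ℂ‖ₑ ^ 2 = 1 := by
    have h := parseval g (b i)
    rw [enorm_eq_one b.orthonormal, one_pow] at h
    rw [← h]
    congr 1
    ext j
    rw [enorm_inner_symm]
  rw [this, one_mul]

theorem trPow_le_sum {κ : Type*} (g : HilbertBasis κ ℂ H) {a : H →L[ℂ] K}
    (hc : IsCompactOperator (adjoint a ∘L a)) {p : ℝ} (hp0 : 0 < p) (hp : p ≤ 2) :
    trPow p a ≤ ∑' j, ‖a (g j)‖ₑ ^ p := by
  obtain ⟨ι, b, hb⟩ := exists_singBasis a hc
  rw [trPow_eq_double g hb hc hp0]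
  exact ENNReal.tsum_le_tsum fun j => term_le hb (g.orthonormal.1 j) hp0 hp

theorem mul_le_half (x y : ℝ≥0∞) : x * y ≤ (x ^ 2 + y ^ 2) / 2 := by
  induction x using ENNReal.recTopCoe with
  | top =>
    have : ((⊤ : ℝ≥0∞) ^ 2 + y ^ 2) / 2 = ⊤ := by
      simp [ENNReal.top_div]
    rw [this]
    exact le_top
  | coe x =>
    induction y using ENNReal.recTopCoe with
    | top =>
      have : ((x : ℝ≥0∞) ^ 2 + ⊤ ^ 2) / 2 = ⊤ := by
        simp [ENNReal.top_div]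
      rw [this]
      exact le_top
    | coe y =>
      rw [ENNReal.le_div_iff_mul_le (Or.inl (by norm_num)) (Or.inl (by norm_num))]
      have h : x * y * 2 ≤ x ^ 2 + y ^ 2 := by
        rw [← NNReal.coe_le_coe]
        push_cast
        nlinarith [sq_nonneg ((x : ℝ) - y)]
      exact_mod_cast h

/-- normalised left singular vectors -/
noncomputable def lsv {ι : Type*} (b : HilbertBasis ι ℂ H) (a : H →L[ℂ] K) (k : ι) : K :=
  ((‖a (b k)‖⁻¹ : ℝ) : ℂ) • a (b k)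

theorem lsv_spec {ι : Type*} (b : HilbertBasis ι ℂ H) (a : H →L[ℂ] K) (k : ι) :
    a (b k) = ((‖a (b k)‖ : ℝ) : ℂ) • lsv b a k := by
  unfold lsv
  rw [smul_smul]
  by_cases h : a (b k) = 0
  · simp [h]
  · have : ‖a (b k)‖ ≠ 0 := by simpa using h
    rw [← Complex.ofReal_mul, mul_inv_cancel₀ this]
    simp

theorem sing_inner {ι : Type*} {b : HilbertBasis ι ℂ H} {a : H →L[ℂ] K} (hb : SingBasis b a)
    {i j : ι} (hij : i ≠ j) : ⟪a (b i), a (b j)⟫_ℂ = 0 := by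
  rw [← adjoint_inner_left, hb i, inner_smul_left, b.orthonormal.2 hij, mul_zero]

theorem lsv_orthonormal {ι : Type*} {b : HilbertBasis ι ℂ H} {a : H →L[ℂ] K}
    (hb : SingBasis b a) : Orthonormal ℂ (fun k : {k // a (b k) ≠ 0} => lsv b a k) := by
  constructor
  · rintro ⟨k, hk⟩
    have : ‖a (b k)‖ ≠ 0 := by simpa using hk
    simp only [lsv]
    rw [norm_smul, Complex.norm_real, norm_inv, norm_norm, inv_mul_cancel₀ this]
  · rintro ⟨k, hk⟩ ⟨l, hl⟩ hkl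
    simp only [lsv]
    rw [inner_smul_left, inner_smul_right, sing_inner hb (fun h => hkl (Subtype.ext h)), mul_zero,
      mul_zero]

theorem lsv_bessel {ι : Type*} {b : HilbertBasis ι ℂ H} {a : H →L[ℂ] K}
    (hb : SingBasis b a) (y : K) : ∑' k, ‖⟪lsv b a k, y⟫_ℂ‖ₑ ^ 2 ≤ ‖y‖ₑ ^ 2 := by
  have h1 : Function.support (fun k => ‖⟪lsv b a k, y⟫_ℂ‖ₑ ^ 2) ⊆ {k | a (b k) ≠ 0} := by
    intro k hk h0
    apply hk
    simp [lsv, h0]
  rw [← tsum_subtype_eq_of_support_subset h1]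
  exact bessel (lsv_orthonormal hb) y

theorem lsv_norm_le {ι : Type*} (b : HilbertBasis ι ℂ H) (a : H →L[ℂ] K) (k : ι) :
    ‖lsv b a k‖ₑ ≤ 1 := by
  rw [← ofReal_norm, ← ENNReal.ofReal_one]
  apply ENNReal.ofReal_le_ofReal
  unfold lsv
  rw [norm_smul, Complex.norm_real, norm_inv, norm_norm]
  exact inv_mul_le_one

/-- the bi-orthonormal inequality -/
theorem biorth_le {κ : Type*} {e : κ → H} {f : κ → K} (he : Orthonormal ℂ e)
    (hf : Orthonormal ℂ f) {a : H →L[ℂ] K} (hc : IsCompactOperator (adjoint a ∘L a))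
    {p : ℝ} (hp : 1 ≤ p) : ∑' j, ‖⟪f j, a (e j)⟫_ℂ‖ₑ ^ p ≤ trPow p a := by
  obtain ⟨ι, b, hb⟩ := exists_singBasis a hc
  rw [trPow_eq hb hc (by linarith)]
  let ω : κ → ι → ℝ≥0∞ := fun j k => (‖⟪b k, e j⟫_ℂ‖ₑ ^ 2 + ‖⟪lsv b a k, f j⟫_ℂ‖ₑ ^ 2) / 2
  have hω1 : ∀ j, ∑' k, ω j k ≤ 1 := by
    intro j
    simp only [ω, ENNReal.div_eq_inv_mul]
    rw [ENNReal.tsum_mul_left, ENNReal.tsum_add, ← ENNReal.div_eq_inv_mul]
    apply ENNReal.div_le_of_le_mul
    rw [one_mul, parseval, enorm_eq_one he]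
    have := lsv_bessel hb (f j)
    rw [enorm_eq_one hf] at this
    calc (1 : ℝ≥0∞) ^ 2 + _ ≤ 1 ^ 2 + 1 ^ 2 := by gcongr
      _ = 2 := by norm_num
  have hω2 : ∀ k, ∑' j, ω j k ≤ 1 := by
    intro k
    simp only [ω, ENNReal.div_eq_inv_mul]
    rw [ENNReal.tsum_mul_left, ENNReal.tsum_add, ← ENNReal.div_eq_inv_mul]
    apply ENNReal.div_le_of_le_mul
    rw [one_mul]
    have h1 := bessel he (b k)
    have h2 := (bessel hf (lsv b a k)).trans (pow_le_pow_left' (lsv_norm_le b a k) 2)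
    rw [enorm_eq_one b.orthonormal] at h1
    simp only [enorm_inner_symm (b k), enorm_inner_symm (lsv b a k)]
    calc _ ≤ (1 : ℝ≥0∞) ^ 2 + 1 ^ 2 := add_le_add h1 h2
      _ = 2 := by norm_num
  have hterm : ∀ j, ‖⟪f j, a (e j)⟫_ℂ‖ₑ ≤ ∑' k, ω j k * ‖a (b k)‖ₑ := by
    intro j
    have h1 := ((b.hasSum_repr (e j)).mapL a).mapL (innerSL ℂ (f j))
    have h2 : HasSum (fun k => ⟪b k, e j⟫_ℂ * ⟪f j, a (b k)⟫_ℂ) ⟪f j, a (e j)⟫_ℂ := by
      simpa [HilbertBasis.repr_apply_apply] using h1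
    rw [← h2.tsum_eq]
    refine (enorm_tsum_le_tsum_enorm).trans ?_
    refine ENNReal.tsum_le_tsum fun k => ?_
    rw [enorm_mul]
    have h3 : ‖⟪f j, a (b k)⟫_ℂ‖ₑ = ‖a (b k)‖ₑ * ‖⟪lsv b a k, f j⟫_ℂ‖ₑ := by
      conv_lhs => rw [lsv_spec b a k]
      rw [inner_smul_right, enorm_mul, enorm_inner_symm]
      congr 1
      rw [← ofReal_norm, Complex.norm_real, norm_norm, ofReal_norm]
    rw [h3]
    calc ‖⟪b k, e j⟫_ℂ‖ₑ * (‖a (b k)‖ₑ * ‖⟪lsv b a k, f j⟫_ℂ‖ₑ)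
        = (‖⟪b k, e j⟫_ℂ‖ₑ * ‖⟪lsv b a k, f j⟫_ℂ‖ₑ) * ‖a (b k)‖ₑ := by ring
      _ ≤ _ := by
        gcongr
        exact mul_le_half _ _
  calc ∑' j, ‖⟪f j, a (e j)⟫_ℂ‖ₑ ^ p
      ≤ ∑' j, ∑' k, ω j k * ‖a (b k)‖ₑ ^ p := by
        refine ENNReal.tsum_le_tsum fun j => ?_
        refine le_trans ?_ (jensen_ge (hω1 j) hp)
        gcongr
        exact hterm j
    _ = ∑' k, (∑' j, ω j k) * ‖a (b k)‖ₑ ^ p := by
        rw [ENNReal.tsum_comm]
        simp only [ENNReal.tsum_mul_right]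
    _ ≤ ∑' k, 1 * ‖a (b k)‖ₑ ^ p := by
        refine ENNReal.tsum_le_tsum fun k => ?_
        gcongr
        exact hω2 k
    _ = _ := by simp only [one_mul]

/-- the bi-orthonormal sums attain the trace -/
theorem biorth_eq {ι : Type*} {b : HilbertBasis ι ℂ H} {a : H →L[ℂ] K} (hb : SingBasis b a)
    (hc : IsCompactOperator (adjoint a ∘L a)) {p : ℝ} (hp : 0 < p) :
    trPow p a = ∑' k : {k // a (b k) ≠ 0}, ‖⟪lsv b a k, a (b k)⟫_ℂ‖ₑ ^ p := by
  rw [trPow_eq hb hc hp]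
  have h1 : Function.support (fun k => ‖a (b k)‖ₑ ^ p) ⊆ {k | a (b k) ≠ 0} := by
    intro k hk h0
    apply hk
    simp [h0, ENNReal.zero_rpow_of_pos hp]
  rw [← tsum_subtype_eq_of_support_subset h1]
  congr 1
  ext ⟨k, hk⟩
  congr 1
  simp only [lsv]
  rw [inner_smul_left, inner_self_eq_norm_sq_to_K]
  have : ‖a (b k)‖ ≠ 0 := by simpa using hk
  rw [← ofReal_norm, ← ofReal_norm]
  congr 1
  rw [norm_mul, RCLike.norm_conj, Complex.norm_real, norm_inv, norm_norm, norm_pow]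
  have : ‖((‖a (b k)‖ : ℝ) : ℂ)‖ = ‖a (b k)‖ := by rw [Complex.norm_real, norm_norm]
  erw [this]
  field_simp

theorem compact_star_mul {a : H →L[ℂ] K} (ha : IsCompactOperator a) :
    IsCompactOperator (adjoint a ∘L a) := ha.clm_comp (adjoint a)

theorem compact_mul_star {a : H →L[ℂ] K} (ha : IsCompactOperator a) :
    IsCompactOperator (adjoint (adjoint a) ∘L adjoint a) := by
  rw [adjoint_adjoint]
  exact ha.comp_clm (adjoint a)

theorem trPow_add_le {a c : H →L[ℂ] K} (ha : IsCompactOperator a) (hc : IsCompactOperator c)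
    {p : ℝ} (hp : 1 ≤ p) :
    (trPow p (a + c)) ^ (1 / p) ≤ (trPow p a) ^ (1 / p) + (trPow p c) ^ (1 / p) := by
  have hp0 : 0 < p := by linarith
  have hac : IsCompactOperator (adjoint (a + c) ∘L (a + c)) := compact_star_mul (ha.add hc)
  obtain ⟨ι, b, hb⟩ := exists_singBasis (a + c) hac
  have key : trPow p (a + c) ≤ ((trPow p a) ^ (1 / p) + (trPow p c) ^ (1 / p)) ^ p := by
    rw [biorth_eq hb hac hp0, ENNReal.tsum_eq_iSup_sum]
    apply iSup_le
    intro s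
    have he : Orthonormal ℂ (fun k : {k // (a + c) (b k) ≠ 0} => b k) :=
      b.orthonormal.comp _ Subtype.val_injective
    have hf := lsv_orthonormal hb
    have h1 := biorth_le he hf (compact_star_mul ha) hp
    have h2 := biorth_le he hf (compact_star_mul hc) hp
    have h3 := ENNReal.Lp_add_le s
      (fun k : {k // (a + c) (b k) ≠ 0} => ‖⟪lsv b (a + c) k, a (b k)⟫_ℂ‖ₑ)
      (fun k : {k // (a + c) (b k) ≠ 0} => ‖⟪lsv b (a + c) k, c (b k)⟫_ℂ‖ₑ) hp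
    calc ∑ k ∈ s, ‖⟪lsv b (a + c) k, (a + c) (b k)⟫_ℂ‖ₑ ^ p
        ≤ ∑ k ∈ s, (‖⟪lsv b (a + c) k, a (b k)⟫_ℂ‖ₑ + ‖⟪lsv b (a + c) k, c (b k)⟫_ℂ‖ₑ) ^ p := by
          refine Finset.sum_le_sum fun k _ => ?_
          gcongr
          rw [add_apply, inner_add_right]
          exact enorm_add_le _ _
      _ = ((∑ k ∈ s, (‖⟪lsv b (a + c) k, a (b k)⟫_ℂ‖ₑ +
            ‖⟪lsv b (a + c) k, c (b k)⟫_ℂ‖ₑ) ^ p) ^ (1 / p)) ^ p := by
          rw [← ENNReal.rpow_mul, one_div, inv_mul_cancel₀ hp0.ne', ENNReal.rpow_one]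
      _ ≤ _ := by
          gcongr
          refine h3.trans ?_
          gcongr
          · exact (ENNReal.sum_le_tsum s).trans h1
          · exact (ENNReal.sum_le_tsum s).trans h2
  calc (trPow p (a + c)) ^ (1 / p)
      ≤ (((trPow p a) ^ (1 / p) + (trPow p c) ^ (1 / p)) ^ p) ^ (1 / p) := by gcongr
    _ = _ := by
      rw [← ENNReal.rpow_mul, one_div, mul_inv_cancel₀ hp0.ne', ENNReal.rpow_one]

theorem singBasis_smul {ι : Type*} {b : HilbertBasis ι ℂ H} {a : H →L[ℂ] K} (hb : SingBasis b a)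
    (c : ℂ) : SingBasis b (c • a) := by
  intro i
  have h := hb i
  have h1 : adjoint (c • a) = (starRingEnd ℂ c) • adjoint a :=
    LinearIsometryEquiv.map_smulₛₗ adjoint c a
  rw [h1]
  simp only [smul_apply, map_smul, h, smul_smul, norm_smul]
  congr 1
  rw [← mul_assoc, Complex.mul_conj']
  push_cast
  ring

theorem trPow_smul {a : H →L[ℂ] K} (ha : IsCompactOperator a) {p : ℝ} (hp : 0 < p) (c : ℂ) :
    trPow p (c • a) = ‖c‖ₑ ^ p * trPow p a := by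
  obtain ⟨ι, b, hb⟩ := exists_singBasis a (compact_star_mul ha)
  rw [trPow_eq hb (compact_star_mul ha) hp,
    trPow_eq (singBasis_smul hb c) (compact_star_mul (ha.smul c)) hp, ← ENNReal.tsum_mul_left]
  congr 1
  ext i
  rw [smul_apply, enorm_smul, ENNReal.mul_rpow_of_nonneg _ _ hp.le]

theorem trPow_eq_zero {a : H →L[ℂ] K} (ha : IsCompactOperator a) {p : ℝ} (hp : 0 < p)
    (h : trPow p a = 0) : a = 0 := by
  obtain ⟨ι, b, hb⟩ := exists_singBasis a (compact_star_mul ha)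
  rw [trPow_eq hb (compact_star_mul ha) hp, ENNReal.tsum_eq_zero] at h
  ext x
  have h1 := sing_parseval hb x
  have h2 : ∀ i, ‖a (b i)‖ₑ = 0 := fun i => (ENNReal.rpow_eq_zero_iff_of_pos hp).1 (h i)
  simp only [h2] at h1
  have h3 : ‖a x‖ₑ ^ 2 = 0 := by
    rw [← h1]
    simp
  simpa using h3

theorem trPow_zero {p : ℝ} (hp : 0 < p) : trPow p (0 : H →L[ℂ] K) = 0 := by
  have h := trPow_smul (a := (0 : H →L[ℂ] K)) isCompactOperator_zero hp 0
  rw [enorm_zero, ENNReal.zero_rpow_of_pos hp, zero_mul] at h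
  rw [← h]
  congr 1
  simp

end Pool.Agent.Helper872.Sch
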