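import Mathlib
import Pool.Agent.Helper872.Sch.Base
set_option autoImplicit false
set_option linter.unusedSectionVars false
open scoped ENNReal InnerProductSpace Topology
open Module ContinuousLinearMap

namespace Pool.Agent.Helper872.Sch

universe u v
variable {H : Type u} [NormedAddCommGroup H] [InnerProductSpace ℂ H] [CompleteSpace H]
  {K : Type v} [NormedAddCommGroup K] [InnerProductSpace ℂ K] [CompleteSpace K]

theorem compact_adjoint {a : H →L[ℂ] K} (ha : IsCompactOperator a) :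
    IsCompactOperator (adjoint a) := by
  have h1 : IsCompactOperator (a ∘L adjoint a) := ha.comp_clm (adjoint a)
  have h2 := (isCompactOperator_iff_isCompact_closure_image_ball
    ((a ∘L adjoint a : K →L[ℂ] K) : K →ₗ[ℂ] K) one_pos).1 h1
  have h3 : TotallyBounded ((a ∘L adjoint a : K →L[ℂ] K) '' Metric.ball 0 1) :=
    h2.totallyBounded.subset subset_closure
  refine (isCompactOperator_iff_isCompact_closure_image_ball
    ((adjoint a : K →L[ℂ] H) : K →ₗ[ℂ] H) one_pos).2 ?_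
  rw [isCompact_iff_totallyBounded_isComplete]
  refine ⟨?_, isClosed_closure.isComplete⟩
  apply TotallyBounded.closure
  rw [Metric.totallyBounded_iff]
  intro ε hε
  rw [totallyBounded_iff_subset] at h3
  obtain ⟨t, hts, htf, hcov⟩ := h3 {q | dist q.1 q.2 < ε ^ 2 / 2}
    (Metric.dist_mem_uniformity (by positivity))
  choose g hg hg2 using hts
  have : Fintype t := htf.fintype
  refine ⟨Set.range (fun y : t => (adjoint a) (g y.2)), Set.finite_range _, ?_⟩
  rintro _ ⟨x, hx, rfl⟩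
  have hx2 := hcov ⟨x, hx, rfl⟩
  simp only [Set.mem_iUnion] at hx2
  obtain ⟨y, hy, hxy⟩ := hx2
  simp only [Set.mem_iUnion]
  refine ⟨_, ⟨⟨y, hy⟩, rfl⟩, ?_⟩
  have hxy' : dist ((a ∘L adjoint a) x) y < ε ^ 2 / 2 := hxy
  rw [← hg2 hy, dist_eq_norm, ← map_sub] at hxy'
  change dist ((adjoint a) x) ((adjoint a) (g hy)) < ε
  rw [dist_eq_norm, ← map_sub]
  set z := x - g hy with hz
  have hz1 : ‖z‖ < 2 := by
    have e1 : ‖x‖ < 1 := by simpa using hx
    have e2 : ‖g hy‖ < 1 := by simpa using hg hy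
    calc ‖z‖ ≤ ‖x‖ + ‖g hy‖ := norm_sub_le _ _
      _ < 2 := by linarith
  have h4 : ‖(adjoint a) z‖ ^ 2 ≤ ‖(a ∘L adjoint a) z‖ * ‖z‖ := by
    have e3 : ⟪(a ∘L adjoint a) z, z⟫_ℂ = (((‖(adjoint a) z‖ ^ 2 : ℝ)) : ℂ) := by
      rw [ContinuousLinearMap.comp_apply, ← adjoint_inner_right, inner_self_eq_norm_sq_to_K]
      push_cast
      rfl
    have e4 := norm_inner_le_norm (𝕜 := ℂ) ((a ∘L adjoint a) z) z
    rw [e3, Complex.norm_real, Real.norm_of_nonneg (by positivity)] at e4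
    exact e4
  have h5 : ‖(adjoint a) z‖ ^ 2 < ε ^ 2 := by
    have : ‖(a ∘L adjoint a) z‖ * ‖z‖ < ε ^ 2 := by
      have h6 : ‖(a ∘L adjoint a) z‖ * ‖z‖ ≤ ‖(a ∘L adjoint a) z‖ * 2 := by gcongr
      linarith
    linarith
  exact lt_of_pow_lt_pow_left₀ 2 hε.le h5

theorem clm_ext_basis {ι : Type*} (b : HilbertBasis ι ℂ H) {S T : H →L[ℂ] K}
    (h : ∀ i, S (b i) = T (b i)) : S = T := by
  ext x
  have h1 := (b.hasSum_repr x).mapL S
  have h2 := (b.hasSum_repr x).mapL T
  simp only [map_smul, h] at h1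
  simp only [map_smul] at h2
  exact h1.unique h2

/-- parallelogram identity -/
theorem enorm_parallelogram (x y : K) :
    ‖x + y‖ₑ ^ 2 + ‖x - y‖ₑ ^ 2 = 2 * (‖x‖ₑ ^ 2 + ‖y‖ₑ ^ 2) := by
  have h4 : ∀ z : K, ‖z‖ₑ ^ 2 = ENNReal.ofReal (‖z‖ ^ 2) := fun z => by
    rw [ENNReal.ofReal_pow (norm_nonneg _), ofReal_norm]
  simp only [h4]
  rw [← ENNReal.ofReal_add (by positivity) (by positivity),
    ← ENNReal.ofReal_add (by positivity) (by positivity)]
  have h := parallelogram_law_with_norm ℂ x y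
  rw [show (2 : ℝ≥0∞) = ENNReal.ofReal 2 by norm_num, ← ENNReal.ofReal_mul (by norm_num)]
  exact congrArg ENNReal.ofReal h

theorem two_point_ge (u v : ℝ≥0∞) {r : ℝ} (hr : 1 ≤ r) :
    2 * ((u + v) / 2) ^ r ≤ u ^ r + v ^ r := by
  have h := jensen_ge (w := fun _ : Bool => (2⁻¹ : ℝ≥0∞)) (x := fun i => cond i u v)
    (by rw [tsum_bool, ENNReal.inv_two_add_inv_two]) hr
  rw [tsum_bool, tsum_bool] at h
  simp only [Bool.cond_false, Bool.cond_true] at h
  rw [← mul_add, ← mul_add] at h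
  calc 2 * ((u + v) / 2) ^ r = 2 * (2⁻¹ * (v + u)) ^ r := by
        rw [ENNReal.div_eq_inv_mul, add_comm u v]
    _ ≤ 2 * (2⁻¹ * (v ^ r + u ^ r)) := by gcongr
    _ = u ^ r + v ^ r := by
        rw [← mul_assoc, ENNReal.mul_inv_cancel (by norm_num) (by norm_num), one_mul, add_comm]

theorem two_point_le (u v : ℝ≥0∞) {r : ℝ} (hr0 : 0 < r) (hr : r ≤ 1) :
    u ^ r + v ^ r ≤ 2 * ((u + v) / 2) ^ r := by
  have h := jensen_le (w := fun _ : Bool => (2⁻¹ : ℝ≥0∞)) (x := fun i => cond i u v)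
    (by rw [tsum_bool, ENNReal.inv_two_add_inv_two]) hr0 hr
  rw [tsum_bool, tsum_bool] at h
  simp only [Bool.cond_false, Bool.cond_true] at h
  rw [← mul_add, ← mul_add] at h
  calc u ^ r + v ^ r = 2 * (2⁻¹ * (v ^ r + u ^ r)) := by
        rw [← mul_assoc, ENNReal.mul_inv_cancel (by norm_num) (by norm_num), one_mul, add_comm]
    _ ≤ 2 * (2⁻¹ * (v + u)) ^ r := by gcongr
    _ = 2 * ((u + v) / 2) ^ r := by
        rw [ENNReal.div_eq_inv_mul, add_comm u v]

theorem pair_ge (x y : K) {p : ℝ} (hp : 2 ≤ p) :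
    2 * (‖x‖ₑ ^ 2 + ‖y‖ₑ ^ 2) ^ (p / 2) ≤ ‖x + y‖ₑ ^ p + ‖x - y‖ₑ ^ p := by
  have h := two_point_ge (‖x + y‖ₑ ^ 2) (‖x - y‖ₑ ^ 2) (show 1 ≤ p / 2 by linarith)
  rw [enorm_parallelogram, sq_rpow, sq_rpow] at h
  refine le_trans (le_of_eq ?_) h
  rw [ENNReal.div_eq_inv_mul, ← mul_assoc, ENNReal.inv_mul_cancel (by norm_num) (by norm_num),
    one_mul]

theorem pair_le (x y : K) {p : ℝ} (hp0 : 0 < p) (hp : p ≤ 2) :
    ‖x + y‖ₑ ^ p + ‖x - y‖ₑ ^ p ≤ 2 * (‖x‖ₑ ^ 2 + ‖y‖ₑ ^ 2) ^ (p / 2) := by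
  have h := two_point_le (‖x + y‖ₑ ^ 2) (‖x - y‖ₑ ^ 2) (show 0 < p / 2 by linarith)
    (show p / 2 ≤ 1 by linarith)
  rw [enorm_parallelogram, sq_rpow, sq_rpow] at h
  refine h.trans (le_of_eq ?_)
  rw [ENNReal.div_eq_inv_mul, ← mul_assoc, ENNReal.inv_mul_cancel (by norm_num) (by norm_num),
    one_mul]

/-- the case `p > 2`: `B` vanishes on the singular vectors of `A` -/
theorem vanish_gt {A B : H →L[ℂ] K} (hA : IsCompactOperator A) (hB : IsCompactOperator B)
    {p : ℝ} (hp : 2 < p) (h1 : trPow p A = 1)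
    (h2 : ∀ t : ℝ, 0 < t → t < 1 → trPow p (A + (t : ℂ) • B) + trPow p (A - (t : ℂ) • B)
      ≤ 2 * (1 + ENNReal.ofReal t ^ p)) {ι : Type*} {b : HilbertBasis ι ℂ H}
    (hb : SingBasis b A) (k : ι) (hk : A (b k) ≠ 0) : B (b k) = 0 := by
  classical
  set s : ℝ := ‖A (b k)‖ with hs
  set β : ℝ := ‖B (b k)‖ with hβ
  have hs0 : 0 < s := by
    rw [hs]
    exact norm_pos_iff.2 hk
  have hp0 : 0 < p := by linarith
  have key : ∀ t : ℝ, 0 < t → t < 1 → p / 2 * s ^ (p - 2) * β ^ 2 * t ^ 2 ≤ t ^ p := by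
    intro t ht0 ht1
    have hcA := compact_star_mul (a := A + (t : ℂ) • B) (hA.add (hB.smul (t : ℂ)))
    have hcB := compact_star_mul (a := A - (t : ℂ) • B) (hA.sub (hB.smul (t : ℂ)))
    have e1 := sum_le_trPow b.orthonormal hcA hp.le
    have e2 := sum_le_trPow b.orthonormal hcB hp.le
    have e3 : 2 * ∑' j, (‖A (b j)‖ₑ ^ 2 + ‖(t : ℂ) • B (b j)‖ₑ ^ 2) ^ (p / 2)
        ≤ 2 * (1 + ENNReal.ofReal t ^ p) := by
      refine le_trans ?_ (h2 t ht0 ht1)
      refine le_trans ?_ (add_le_add e1 e2)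
      rw [← ENNReal.tsum_mul_left, ← ENNReal.tsum_add]
      exact ENNReal.tsum_le_tsum fun j => pair_ge (A (b j)) ((t : ℂ) • B (b j)) hp.le
    have e4 : ∑' j, (‖A (b j)‖ₑ ^ 2 + ‖(t : ℂ) • B (b j)‖ₑ ^ 2) ^ (p / 2)
        ≤ 1 + ENNReal.ofReal t ^ p :=
      (ENNReal.mul_le_mul_iff_right (by norm_num) (by norm_num)).1 e3
    set c : ℝ≥0∞ := ENNReal.ofReal (p / 2 * s ^ (p - 2) * β ^ 2 * t ^ 2) with hc
    have e5 : ∑' j, (‖A (b j)‖ₑ ^ p + if j = k then c else 0)
        ≤ ∑' j, (‖A (b j)‖ₑ ^ 2 + ‖(t : ℂ) • B (b j)‖ₑ ^ 2) ^ (p / 2) := by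
      refine ENNReal.tsum_le_tsum fun j => ?_
      by_cases hj : j = k
      · subst hj
        rw [if_pos rfl]
        have f1 : ‖A (b j)‖ₑ = ENNReal.ofReal s := (ofReal_norm _).symm
        have f2 : ‖(t : ℂ) • B (b j)‖ₑ = ENNReal.ofReal (t * β) := by
          rw [← ofReal_norm, norm_smul, Complex.norm_real, Real.norm_of_nonneg ht0.le]
        rw [f1, f2, hc, ENNReal.ofReal_rpow_of_pos hs0,
          ← ENNReal.ofReal_add (by positivity) (by positivity), ← ENNReal.ofReal_pow hs0.le,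
          ← ENNReal.ofReal_pow (by positivity), ← ENNReal.ofReal_add (by positivity) (by positivity),
          ENNReal.ofReal_rpow_of_pos (by positivity)]
        apply ENNReal.ofReal_le_ofReal
        have f3 := one_add_mul_self_le_rpow_one_add (s := (t * β) ^ 2 / s ^ 2) (p := p / 2)
          (by have : 0 ≤ (t * β) ^ 2 / s ^ 2 := by positivity
              linarith) (by linarith)
        have f4 : s ^ 2 + (t * β) ^ 2 = s ^ 2 * (1 + (t * β) ^ 2 / s ^ 2) := by
          field_simp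
        rw [f4, Real.mul_rpow (by positivity) (by positivity)]
        have f5 : (s ^ 2) ^ (p / 2) = s ^ p := by
          rw [← Real.rpow_natCast, ← Real.rpow_mul hs0.le]
          congr 1
          push_cast
          ring
        have f6 : s ^ p = s ^ (p - 2) * s ^ 2 := by
          rw [← Real.rpow_natCast s 2, ← Real.rpow_add hs0]
          congr 1
          push_cast
          ring
        rw [f5]
        calc s ^ p + p / 2 * s ^ (p - 2) * β ^ 2 * t ^ 2
            = s ^ p * (1 + p / 2 * ((t * β) ^ 2 / s ^ 2)) := by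
              rw [f6]
              field_simp
          _ ≤ _ := by gcongr
      · rw [if_neg hj, add_zero, ← sq_rpow]
        gcongr
        exact le_self_add
    rw [ENNReal.tsum_add, tsum_ite_eq, ← trPow_eq hb (compact_star_mul hA) hp0, h1] at e5
    have e6 := e5.trans e4
    have e7 : c ≤ ENNReal.ofReal t ^ p := (ENNReal.add_le_add_iff_left (by norm_num)).1 e6
    rw [hc, ENNReal.ofReal_rpow_of_pos ht0] at e7
    exact (ENNReal.ofReal_le_ofReal_iff (by positivity)).1 e7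
  by_contra hne
  have hβ0 : 0 < β := by
    rw [hβ]
    exact norm_pos_iff.2 hne
  set C : ℝ := p / 2 * s ^ (p - 2) * β ^ 2 with hC
  have hC0 : 0 < C := by positivity
  have key2 : ∀ t : ℝ, 0 < t → t < 1 → C ≤ t ^ (p - 2) := by
    intro t ht0 ht1
    have := key t ht0 ht1
    have h3 : t ^ p = t ^ (p - 2) * t ^ 2 := by
      rw [← Real.rpow_natCast t 2, ← Real.rpow_add ht0]
      congr 1
      push_cast
      ring
    rw [h3] at this
    exact le_of_mul_le_mul_right this (by positivity)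
  have hlim : Filter.Tendsto (fun t : ℝ => t ^ (p - 2)) (𝓝[>] 0) (𝓝 0) := by
    have h4 : ContinuousAt (fun t : ℝ => t ^ (p - 2)) 0 :=
      Real.continuousAt_rpow_const _ _ (Or.inr (by linarith))
    have h5 := h4.tendsto
    rw [Real.zero_rpow (by linarith)] at h5
    exact h5.mono_left nhdsWithin_le_nhds
  have hge : C ≤ 0 := by
    refine ge_of_tendsto hlim ?_
    filter_upwards [Ioo_mem_nhdsGT (show (0 : ℝ) < 1 by norm_num)] with t ht
    exact key2 t ht.1 ht.2
  linarith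

/-- if `B` kills the singular vectors of `A` then `B A† = 0` -/
theorem comp_adjoint_zero {A B : H →L[ℂ] K} {ι : Type*} {b : HilbertBasis ι ℂ H}
    (h : ∀ k, A (b k) ≠ 0 → B (b k) = 0) : B ∘L adjoint A = 0 := by
  ext y
  have h1 := (b.hasSum_repr ((adjoint A) y)).mapL B
  have h2 : (fun k => B ((b.repr ((adjoint A) y)) k • b k)) = fun _ => 0 := by
    ext k
    rw [map_smul, HilbertBasis.repr_apply_apply, adjoint_inner_right]
    by_cases hk : A (b k) = 0
    · rw [hk, inner_zero_left, zero_smul]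
    · rw [h k hk, smul_zero]
  rw [h2] at h1
  exact h1.unique hasSum_zero

/-! ### The column operator -/

/-- the operator `x ↦ (A x, B x)` -/
noncomputable def colOp (A B : H →L[ℂ] K) : H →L[ℂ] WithLp 2 (K × K) :=
  ((WithLp.prodContinuousLinearEquiv 2 ℂ K K).symm : K × K →L[ℂ] WithLp 2 (K × K)) ∘L (A.prod B)

theorem colOp_apply (A B : H →L[ℂ] K) (x : H) : colOp A B x = WithLp.toLp 2 (A x, B x) := rfl

theorem colOp_enorm (A B : H →L[ℂ] K) (x : H) :
    ‖colOp A B x‖ₑ ^ 2 = ‖A x‖ₑ ^ 2 + ‖B x‖ₑ ^ 2 := by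
  have h := WithLp.prod_norm_sq_eq_of_L2 (colOp A B x)
  have h4 : ∀ z : K, ‖z‖ₑ ^ 2 = ENNReal.ofReal (‖z‖ ^ 2) := fun z => by
    rw [ENNReal.ofReal_pow (norm_nonneg _), ofReal_norm]
  rw [h4, h4, ← ENNReal.ofReal_add (by positivity) (by positivity), ← ofReal_norm,
    ← ENNReal.ofReal_pow (norm_nonneg _), h]
  rfl

theorem colOp_adjoint_left (A B : H →L[ℂ] K) (y : K) :
    (adjoint (colOp A B)) (WithLp.toLp 2 (y, 0)) = (adjoint A) y := by
  refine ext_inner_right ℂ fun x => ?_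
  rw [adjoint_inner_left, adjoint_inner_left, colOp_apply]
  simp [WithLp.prod_inner_apply]

theorem colOp_adjoint_right (A B : H →L[ℂ] K) (y : K) :
    (adjoint (colOp A B)) (WithLp.toLp 2 (0, y)) = (adjoint B) y := by
  refine ext_inner_right ℂ fun x => ?_
  rw [adjoint_inner_left, adjoint_inner_left, colOp_apply]
  simp [WithLp.prod_inner_apply]

theorem colOp_compact {A B : H →L[ℂ] K} (hA : IsCompactOperator A) (hB : IsCompactOperator B) :
    IsCompactOperator (colOp A B) := by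
  have h1 : IsCompactOperator (colOp A 0) := by
    exact hA.clm_comp (colOp (ContinuousLinearMap.id ℂ K) 0 : K →L[ℂ] WithLp 2 (K × K))
  have h2 : IsCompactOperator (colOp 0 B) := by
    exact hB.clm_comp (colOp 0 (ContinuousLinearMap.id ℂ K) : K →L[ℂ] WithLp 2 (K × K))
  have h3 := h1.add h2
  have h4 : (⇑(colOp A 0) + ⇑(colOp 0 B) : H → WithLp 2 (K × K)) = ⇑(colOp A B) := by
    ext x
    simp only [Pi.add_apply, colOp_apply, ← WithLp.toLp_add, Prod.mk_add_mk, zero_apply,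
      add_zero, zero_add]
  rw [h4] at h3
  exact h3

theorem exists_sumBasis {κ κ' : Type*} (u : HilbertBasis κ ℂ K) (u' : HilbertBasis κ' ℂ K) :
    ∃ g : HilbertBasis (κ ⊕ κ') ℂ (WithLp 2 (K × K)),
      (∀ k, g (Sum.inl k) = WithLp.toLp 2 (u k, 0)) ∧
      (∀ k, g (Sum.inr k) = WithLp.toLp 2 (0, u' k)) := by
  have hon : Orthonormal ℂ (Sum.elim (fun k => (WithLp.toLp 2 (u k, 0) : WithLp 2 (K × K)))
      (fun k => WithLp.toLp 2 (0, u' k))) := by
    constructor
    · rintro (k | k)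
      · have h := WithLp.prod_norm_sq_eq_of_L2 (WithLp.toLp 2 (u k, 0) : WithLp 2 (K × K))
        rw [show (WithLp.toLp 2 (u k, (0:K)) : WithLp 2 (K × K)).fst = u k from rfl,
          show (WithLp.toLp 2 (u k, (0:K)) : WithLp 2 (K × K)).snd = 0 from rfl,
          u.orthonormal.1 k, norm_zero] at h
        have h2 : ‖(WithLp.toLp 2 (u k, 0) : WithLp 2 (K × K))‖ ^ 2 = 1 := by
          rw [h]; norm_num
        exact (pow_eq_one_iff_of_nonneg (norm_nonneg _) two_ne_zero).1 h2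
      · have h := WithLp.prod_norm_sq_eq_of_L2 (WithLp.toLp 2 (0, u' k) : WithLp 2 (K × K))
        rw [show (WithLp.toLp 2 ((0:K), u' k) : WithLp 2 (K × K)).fst = 0 from rfl,
          show (WithLp.toLp 2 ((0:K), u' k) : WithLp 2 (K × K)).snd = u' k from rfl,
          u'.orthonormal.1 k, norm_zero] at h
        have h2 : ‖(WithLp.toLp 2 (0, u' k) : WithLp 2 (K × K))‖ ^ 2 = 1 := by
          rw [h]; norm_num
        exact (pow_eq_one_iff_of_nonneg (norm_nonneg _) two_ne_zero).1 h2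
    · rintro (k | k) (l | l) hkl
      · simp only [Sum.elim_inl, WithLp.prod_inner_apply, inner_zero_right, add_zero]
        exact u.orthonormal.2 (fun h => hkl (h ▸ rfl))
      · simp [WithLp.prod_inner_apply]
      · simp [WithLp.prod_inner_apply]
      · simp only [Sum.elim_inr, WithLp.prod_inner_apply, inner_zero_right, zero_add]
        exact u'.orthonormal.2 (fun h => hkl (h ▸ rfl))
  have hsp : (Submodule.span ℂ (Set.range (Sum.elim
      (fun k => (WithLp.toLp 2 (u k, 0) : WithLp 2 (K × K)))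
      (fun k => WithLp.toLp 2 (0, u' k)))))ᗮ = ⊥ := by
    rw [eq_bot_iff]
    intro x hx
    rw [Submodule.mem_orthogonal] at hx
    have h1 : ∀ k, ⟪u k, x.fst⟫_ℂ = 0 := fun k => by
      have := hx _ (Submodule.subset_span ⟨Sum.inl k, rfl⟩)
      simpa [WithLp.prod_inner_apply] using this
    have h2 : ∀ k, ⟪u' k, x.snd⟫_ℂ = 0 := fun k => by
      have := hx _ (Submodule.subset_span ⟨Sum.inr k, rfl⟩)
      simpa [WithLp.prod_inner_apply] using this
    have h3 := eq_zero_of_inner u h1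
    have h4 := eq_zero_of_inner u' h2
    rw [Submodule.mem_bot]
    apply (WithLp.equiv 2 (K × K)).injective
    exact Prod.ext h3 h4
  refine ⟨HilbertBasis.mkOfOrthogonalEqBot hon hsp, fun k => ?_, fun k => ?_⟩
  · rw [HilbertBasis.coe_mkOfOrthogonalEqBot]
    rfl
  · rw [HilbertBasis.coe_mkOfOrthogonalEqBot]
    rfl

theorem trPow_colOp_le {A B : H →L[ℂ] K} (hA : IsCompactOperator A) (hB : IsCompactOperator B)
    {p : ℝ} (hp0 : 0 < p) (hp : p ≤ 2) : trPow p (colOp A B) ≤ trPow p A + trPow p B := by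
  obtain ⟨κ, u, hu⟩ := exists_singBasis (adjoint A) (compact_mul_star hA)
  obtain ⟨κ', u', hu'⟩ := exists_singBasis (adjoint B) (compact_mul_star hB)
  obtain ⟨g, hg1, hg2⟩ := exists_sumBasis u u'
  rw [← trPow_adjoint (colOp A B) hp0, ← trPow_adjoint A hp0, ← trPow_adjoint B hp0,
    trPow_eq hu (compact_mul_star hA) hp0, trPow_eq hu' (compact_mul_star hB) hp0]
  refine (trPow_le_sum g (compact_mul_star (colOp_compact hA hB)) hp0 hp).trans ?_
  rw [Summable.tsum_sum ENNReal.summable ENNReal.summable]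
  simp only [hg1, hg2, colOp_adjoint_left, colOp_adjoint_right, le_refl]

theorem eq_of_tsum_le {ι : Type*} {f g : ι → ℝ≥0∞} (hfg : ∀ i, f i ≤ g i)
    (h : ∑' i, g i ≤ ∑' i, f i) (hfin : ∑' i, f i ≠ ∞) (i : ι) : f i = g i := by
  by_contra hne
  have := ENNReal.tsum_lt_tsum hfin hfg (lt_of_le_of_ne (hfg i) hne)
  exact absurd h (not_le.2 this)

/-- equality in Jensen's inequality forces an eigenvector -/
theorem eigen_of_eq {ι : Type*} {b : HilbertBasis ι ℂ H} {X : H →L[ℂ] K} (hb : SingBasis b X)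
    {x : H} (hx : ‖x‖ = 1) {p : ℝ} (hp0 : 0 < p) (hp : p < 2)
    (heq : ∑' i, ‖⟪b i, x⟫_ℂ‖ₑ ^ 2 * ‖X (b i)‖ₑ ^ p = ‖X x‖ₑ ^ p) :
    (adjoint X) (X x) = ((‖X x‖ ^ 2 : ℝ) : ℂ) • x := by
  set w : ι → ℝ := fun i => ‖⟪b i, x⟫_ℂ‖ ^ 2 with hw
  set μ : ι → ℝ := fun i => ‖X (b i)‖ ^ 2 with hμ
  set m : ℝ := ‖X x‖ ^ 2 with hm
  set r : ℝ := p / 2 with hr
  have hr0 : 0 < r := by positivity
  have hr1 : r < 1 := by
    rw [hr]; linarith
  have hw0 : ∀ i, 0 ≤ w i := fun i => by positivity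
  have hμ0 : ∀ i, 0 ≤ μ i := fun i => by positivity
  have hm0 : 0 ≤ m := by positivity
  have e0 : ∀ (y : ℂ), ‖y‖ₑ ^ 2 = ENNReal.ofReal (‖y‖ ^ 2) := fun y => by
    rw [ENNReal.ofReal_pow (norm_nonneg _), ofReal_norm]
  have e1 : ∀ (y : K), ‖y‖ₑ ^ 2 = ENNReal.ofReal (‖y‖ ^ 2) := fun y => by
    rw [ENNReal.ofReal_pow (norm_nonneg _), ofReal_norm]
  have e2 : ∀ (y : K), ‖y‖ₑ ^ p = ENNReal.ofReal ((‖y‖ ^ 2) ^ r) := fun y => by
    rw [← ENNReal.ofReal_rpow_of_nonneg (by positivity) hr0.le, ← e1, hr, sq_rpow]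
  have toR : ∀ {f : ι → ℝ} {s : ℝ}, (∀ i, 0 ≤ f i) → 0 ≤ s →
      ∑' i, ENNReal.ofReal (f i) = ENNReal.ofReal s → HasSum f s := by
    intro f s hf hs h
    have h1 : ∑' i, ENNReal.ofReal (f i) ≠ ∞ := by
      rw [h]; exact ENNReal.ofReal_ne_top
    have h2 := ENNReal.hasSum_toReal h1
    have h3 : (fun i => (ENNReal.ofReal (f i)).toReal) = f := by
      ext i
      exact ENNReal.toReal_ofReal (hf i)
    rw [h3] at h2
    have h4 : ∑' i, f i = s := by
      have := ENNReal.ofReal_tsum_of_nonneg hf h2.summable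
      rw [h] at this
      have h5 := congrArg ENNReal.toReal this
      rwa [ENNReal.toReal_ofReal (tsum_nonneg hf), ENNReal.toReal_ofReal hs] at h5
    rwa [h4] at h2
  have s1 : HasSum w 1 := by
    apply toR hw0 zero_le_one
    have h := parseval b x
    simp only [e0] at h
    rw [hw, h, ← ofReal_norm, hx]
    norm_num
  have s2 : HasSum (fun i => w i * μ i) m := by
    apply toR (fun i => mul_nonneg (hw0 i) (hμ0 i)) hm0
    have h := sing_parseval hb x
    simp only [e0, e1] at h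
    rw [hm, ← h]
    congr 1
    ext i
    rw [ENNReal.ofReal_mul (hw0 i)]
  have s3 : HasSum (fun i => w i * μ i ^ r) (m ^ r) := by
    apply toR (fun i => mul_nonneg (hw0 i) (Real.rpow_nonneg (hμ0 i) _)) (Real.rpow_nonneg hm0 _)
    simp only [e0, e2] at heq
    rw [hm, ← heq]
    congr 1
    ext i
    rw [ENNReal.ofReal_mul (hw0 i)]
  -- the weights live on `μ i = m`
  have hkey : ∀ i, w i = 0 ∨ μ i = m := by
    intro i
    rcases eq_or_lt_of_le hm0 with h0 | hmpos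
    · rw [← h0] at s2
      have h1 := (hasSum_zero_iff_of_nonneg (fun i => mul_nonneg (hw0 i) (hμ0 i))).1 s2
      have h2 := congrFun h1 i
      rcases mul_eq_zero.1 h2 with h3 | h3
      · exact Or.inl h3
      · exact Or.inr (h3.trans h0)
    · have tang : ∀ t : ℝ, 0 ≤ t → t ≠ m → t ^ r < m ^ r + r * m ^ (r - 1) * (t - m) := by
        intro t ht htm
        have h1 := rpow_one_add_lt_one_add_mul_self (s := t / m - 1) (p := r)
          (by have : 0 ≤ t / m := by positivity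
              linarith) (by
            intro h
            apply htm
            rw [sub_eq_zero, div_eq_one_iff_eq hmpos.ne'] at h
            exact h) hr0 hr1
        rw [add_sub_cancel, Real.div_rpow ht hm0] at h1
        have hmr : 0 < m ^ r := Real.rpow_pos_of_pos hmpos _
        have h2 : t ^ r < m ^ r * (1 + r * (t / m - 1)) := by
          rwa [div_lt_iff₀ hmr, mul_comm] at h1
        have h3 : m ^ r = m ^ (r - 1) * m := by
          rw [Real.rpow_sub_one hmpos.ne']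
          field_simp
        calc t ^ r < m ^ r * (1 + r * (t / m - 1)) := h2
          _ = m ^ r + r * m ^ (r - 1) * (t - m) := by
            rw [mul_add, mul_one]
            congr 1
            rw [h3]
            field_simp
      have s4 : HasSum (fun i => w i * (m ^ r + r * m ^ (r - 1) * (μ i - m) - μ i ^ r)) 0 := by
        have h1 := ((s1.mul_left (m ^ r - r * m ^ (r - 1) * m)).add
          (s2.mul_left (r * m ^ (r - 1)))).sub s3
        have h2 : (fun i => (m ^ r - r * m ^ (r - 1) * m) * w i + r * m ^ (r - 1) * (w i * μ i)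
            - w i * μ i ^ r) = fun i => w i * (m ^ r + r * m ^ (r - 1) * (μ i - m) - μ i ^ r) := by
          ext i
          ring
        rw [h2] at h1
        have h3 : (m ^ r - r * m ^ (r - 1) * m) * 1 + r * m ^ (r - 1) * m - m ^ r = 0 := by ring
        rw [h3] at h1
        exact h1
      have hnn : ∀ i, 0 ≤ w i * (m ^ r + r * m ^ (r - 1) * (μ i - m) - μ i ^ r) := by
        intro i
        apply mul_nonneg (hw0 i)
        by_cases h : μ i = m
        · rw [h]
          simp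
        · have := tang (μ i) (hμ0 i) h
          linarith
      have h1 := (hasSum_zero_iff_of_nonneg hnn).1 s4
      have h2 := congrFun h1 i
      rcases mul_eq_zero.1 h2 with h3 | h3
      · exact Or.inl h3
      · right
        by_contra h
        have := tang (μ i) (hμ0 i) h
        linarith
  apply ext_basis b
  intro i
  have h5 : ⟪b i, (adjoint X) (X x)⟫_ℂ = ((‖X (b i)‖ ^ 2 : ℝ) : ℂ) * ⟪b i, x⟫_ℂ := by
    rw [adjoint_inner_right, ← adjoint_inner_left, hb i, inner_smul_left, Complex.conj_ofReal]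
  rw [h5, inner_smul_right]
  rcases hkey i with h | h
  · have : ⟪b i, x⟫_ℂ = 0 := by
      have h6 : ‖⟪b i, x⟫_ℂ‖ ^ 2 = 0 := h
      simpa using h6
    rw [this, mul_zero, mul_zero]
  · rw [show ‖X (b i)‖ ^ 2 = m from h]

theorem norm_eq_of_pair {x y : K} {p : ℝ} (hp0 : 0 < p) (hp : p < 2)
    (h : ‖x + y‖ₑ ^ p + ‖x - y‖ₑ ^ p = 2 * (‖x‖ₑ ^ 2 + ‖y‖ₑ ^ 2) ^ (p / 2)) :
    ‖x + y‖ = ‖x - y‖ := by
  set u : ℝ := ‖x + y‖ ^ 2 with hu
  set v : ℝ := ‖x - y‖ ^ 2 with hv
  have hu0 : 0 ≤ u := by positivity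
  have hv0 : 0 ≤ v := by positivity
  have hr0 : 0 < p / 2 := by positivity
  have e1 : ∀ (y : K), ‖y‖ₑ ^ 2 = ENNReal.ofReal (‖y‖ ^ 2) := fun y => by
    rw [ENNReal.ofReal_pow (norm_nonneg _), ofReal_norm]
  have e2 : ∀ (y : K), ‖y‖ₑ ^ p = ENNReal.ofReal ((‖y‖ ^ 2) ^ (p / 2)) := fun y => by
    rw [← ENNReal.ofReal_rpow_of_nonneg (by positivity) hr0.le, ← e1, sq_rpow]
  have hpar : ‖x‖ ^ 2 + ‖y‖ ^ 2 = (u + v) / 2 := by
    have := parallelogram_law_with_norm ℂ x y
    rw [hu, hv]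
    nlinarith [this]
  rw [e2, e2, e1, e1, ← ENNReal.ofReal_add (by positivity) (by positivity),
    ← ENNReal.ofReal_add (by positivity) (by positivity), hpar,
    ENNReal.ofReal_rpow_of_nonneg (by positivity) hr0.le,
    show (2 : ℝ≥0∞) = ENNReal.ofReal 2 by norm_num, ← ENNReal.ofReal_mul (by norm_num)] at h
  have h2 := congrArg ENNReal.toReal h
  rw [ENNReal.toReal_ofReal (by positivity), ENNReal.toReal_ofReal (by positivity)] at h2
  have huv : u = v := by
    by_contra hne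
    have h3 := (Real.strictConcaveOn_rpow hr0 (show p / 2 < 1 by linarith)).2 hu0 hv0 hne
      (show (0 : ℝ) < 1 / 2 by norm_num) (show (0 : ℝ) < 1 / 2 by norm_num) (by norm_num)
    simp only [smul_eq_mul] at h3
    have h4 : 1 / 2 * u + 1 / 2 * v = (u + v) / 2 := by ring
    rw [h4] at h3
    linarith
  have h5 : ‖x + y‖ ^ 2 = ‖x - y‖ ^ 2 := huv
  exact (pow_left_inj₀ (norm_nonneg _) (norm_nonneg _) two_ne_zero).1 h5

theorem cross_lt {A B : H →L[ℂ] K} (hA : IsCompactOperator A) (hB : IsCompactOperator B)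
    {p : ℝ} (hp0 : 0 < p) (hp : p < 2) (h1 : trPow p A ≤ 1) (h2 : trPow p B ≤ 1)
    (h3 : 4 ≤ trPow p (A + B) + trPow p (A - B)) : adjoint A ∘L B + adjoint B ∘L A = 0 := by
  have hcp : IsCompactOperator (adjoint (A + B) ∘L (A + B)) :=
    compact_star_mul (a := A + B) (hA.add hB)
  have hcm : IsCompactOperator (adjoint (A - B) ∘L (A - B)) :=
    compact_star_mul (a := A - B) (hA.sub hB)
  obtain ⟨ι, b, hb⟩ := exists_singBasis (A + B) hcp
  obtain ⟨ι', b', hb'⟩ := exists_singBasis (A - B) hcm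
  obtain ⟨κ, g, hg⟩ := exists_singBasis (colOp A B) (compact_star_mul (colOp_compact hA hB))
  have hg1 := g.orthonormal.1
  let F1 : κ → ℝ≥0∞ := fun j => ∑' i, ‖⟪b i, g j⟫_ℂ‖ₑ ^ 2 * ‖(A + B) (b i)‖ₑ ^ p
  let F2 : κ → ℝ≥0∞ := fun j => ∑' i, ‖⟪b' i, g j⟫_ℂ‖ₑ ^ 2 * ‖(A - B) (b' i)‖ₑ ^ p
  let M1 : κ → ℝ≥0∞ := fun j => ‖(A + B) (g j)‖ₑ ^ p
  let M2 : κ → ℝ≥0∞ := fun j => ‖(A - B) (g j)‖ₑ ^ p
  let G : κ → ℝ≥0∞ := fun j => 2 * (‖A (g j)‖ₑ ^ 2 + ‖B (g j)‖ₑ ^ 2) ^ (p / 2)
  have hF1 : trPow p (A + B) = ∑' j, F1 j := trPow_eq_double g hb hcp hp0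
  have hF2 : trPow p (A - B) = ∑' j, F2 j := trPow_eq_double g hb' hcm hp0
  have l1 : ∀ j, F1 j ≤ M1 j := fun j => term_le hb (hg1 j) hp0 hp.le
  have l2 : ∀ j, F2 j ≤ M2 j := fun j => term_le hb' (hg1 j) hp0 hp.le
  have l3 : ∀ j, M1 j + M2 j ≤ G j := fun j => pair_le (A (g j)) (B (g j)) hp0 hp.le
  have hG : ∑' j, G j ≤ 4 := by
    have e1 : ∑' j, G j = 2 * trPow p (colOp A B) := by
      rw [trPow_eq hg (compact_star_mul (colOp_compact hA hB)) hp0, ← ENNReal.tsum_mul_left]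
      congr 1
      ext j
      simp only [G]
      rw [← colOp_enorm, sq_rpow]
    rw [e1]
    calc 2 * trPow p (colOp A B) ≤ 2 * (1 + 1) := by
          gcongr
          exact (trPow_colOp_le hA hB hp0 hp.le).trans (add_le_add h1 h2)
      _ = 4 := by norm_num
  have hFG : ∀ j, F1 j + F2 j ≤ G j := fun j => (add_le_add (l1 j) (l2 j)).trans (l3 j)
  have hsumF : ∑' j, (F1 j + F2 j) = trPow p (A + B) + trPow p (A - B) := by
    rw [ENNReal.tsum_add, hF1, hF2]
  have hfin : ∑' j, (F1 j + F2 j) ≠ ∞ :=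
    ((ENNReal.tsum_le_tsum hFG).trans hG).trans_lt (by norm_num) |>.ne
  have heq : ∀ j, F1 j + F2 j = G j :=
    eq_of_tsum_le hFG (by rw [hsumF]; exact hG.trans h3) hfin
  have hGfin : ∀ j, G j ≠ ∞ := fun j => (lt_of_le_of_lt (ENNReal.le_tsum j)
    (hG.trans_lt (by norm_num))).ne
  have hMG : ∀ j, M1 j + M2 j = G j := fun j =>
    le_antisymm (l3 j) (by rw [← heq j]; exact add_le_add (l1 j) (l2 j))
  have hM1fin : ∀ j, M1 j ≠ ∞ := fun j =>
    (lt_of_le_of_lt le_self_add (by rw [hMG j]; exact lt_top_iff_ne_top.2 (hGfin j))).ne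
  have hM2fin : ∀ j, M2 j ≠ ∞ := fun j =>
    (lt_of_le_of_lt le_add_self (by rw [hMG j]; exact lt_top_iff_ne_top.2 (hGfin j))).ne
  have q1 : ∀ j, F1 j = M1 j := by
    intro j
    refine le_antisymm (l1 j) ?_
    by_contra hlt
    push Not at hlt
    have : F1 j + F2 j < M1 j + M2 j :=
      ENNReal.add_lt_add_of_lt_of_le (ne_top_of_le_ne_top (hM2fin j) (l2 j)) hlt (l2 j)
    rw [heq j, hMG j] at this
    exact lt_irrefl _ this
  have q2 : ∀ j, F2 j = M2 j := by
    intro j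
    refine le_antisymm (l2 j) ?_
    by_contra hlt
    push Not at hlt
    have : F1 j + F2 j < M1 j + M2 j :=
      ENNReal.add_lt_add_of_le_of_lt (ne_top_of_le_ne_top (hM1fin j) (l1 j)) (l1 j) hlt
    rw [heq j, hMG j] at this
    exact lt_irrefl _ this
  have hfinal : adjoint (A + B) ∘L (A + B) = adjoint (A - B) ∘L (A - B) := by
    apply clm_ext_basis g
    intro j
    have e1 := eigen_of_eq hb (hg1 j) hp0 hp (q1 j)
    have e2 := eigen_of_eq hb' (hg1 j) hp0 hp (q2 j)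
    have e3 : ‖(A + B) (g j)‖ = ‖(A - B) (g j)‖ :=
      norm_eq_of_pair (x := A (g j)) (y := B (g j)) hp0 hp (hMG j)
    rw [ContinuousLinearMap.comp_apply, ContinuousLinearMap.comp_apply, e1, e2, e3]
  ext x
  have h5 := congrFun (congrArg DFunLike.coe hfinal) x
  simp only [ContinuousLinearMap.comp_apply, map_add, map_sub, add_apply, sub_apply] at h5
  simp only [ContinuousLinearMap.comp_apply, add_apply, zero_apply]
  have h6 : (2 : ℂ) • ((adjoint A) (B x) + (adjoint B) (A x)) = 0 := by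
    rw [two_smul]
    rw [← sub_eq_zero] at h5
    rw [← h5]
    abel
  rcases smul_eq_zero.1 h6 with h7 | h7
  · norm_num at h7
  · exact h7

theorem cross_zero_lt {A B : H →L[ℂ] K} (hA : IsCompactOperator A) (hB : IsCompactOperator B)
    {p : ℝ} (hp0 : 0 < p) (hp : p < 2)
    (hN : ∀ α β : ℂ, trPow p (α • A + β • B) = ‖α‖ₑ ^ p + ‖β‖ₑ ^ p) :
    adjoint A ∘L B = 0 := by
  have hI : ‖Complex.I‖ₑ = 1 := by rw [← ofReal_norm, Complex.norm_I, ENNReal.ofReal_one]
  have z0 : (0 : ℝ≥0∞) ^ p = 0 := ENNReal.zero_rpow_of_pos hp0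
  have h1 : trPow p A ≤ 1 := by
    have := hN 1 0
    rw [one_smul, zero_smul, add_zero, enorm_one, ENNReal.one_rpow, enorm_zero, z0, add_zero] at this
    exact this.le
  have h2 : trPow p B ≤ 1 := by
    have := hN 0 1
    rw [one_smul, zero_smul, zero_add, enorm_one, ENNReal.one_rpow, enorm_zero, z0, zero_add] at this
    exact this.le
  have h2' : trPow p (Complex.I • B) ≤ 1 := by
    have := hN 0 Complex.I
    rw [zero_smul, zero_add, hI, ENNReal.one_rpow, enorm_zero, z0, zero_add] at this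
    exact this.le
  have h3 : 4 ≤ trPow p (A + B) + trPow p (A - B) := by
    have e1 := hN 1 1
    have e2 := hN 1 (-1)
    rw [one_smul, one_smul, enorm_one, ENNReal.one_rpow] at e1
    rw [one_smul, neg_smul, one_smul, enorm_one, enorm_neg, enorm_one, ENNReal.one_rpow,
      ← sub_eq_add_neg] at e2
    rw [e1, e2]
    norm_num
  have h3' : 4 ≤ trPow p (A + Complex.I • B) + trPow p (A - Complex.I • B) := by
    have e1 := hN 1 Complex.I
    have e2 := hN 1 (-Complex.I)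
    rw [one_smul, enorm_one, hI, ENNReal.one_rpow] at e1
    rw [one_smul, neg_smul, enorm_one, enorm_neg, hI, ENNReal.one_rpow, ← sub_eq_add_neg] at e2
    rw [e1, e2]
    norm_num
  have c1 := cross_lt hA hB hp0 hp h1 h2 h3
  have c2 := cross_lt hA (B := Complex.I • B) (hB.smul Complex.I) hp0 hp h1 h2' h3'
  ext x
  have d1 := congrFun (congrArg DFunLike.coe c1) x
  have d2 := congrFun (congrArg DFunLike.coe c2) x
  have hadj : adjoint (Complex.I • B) = (starRingEnd ℂ Complex.I) • adjoint B :=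
    LinearIsometryEquiv.map_smulₛₗ adjoint Complex.I B
  rw [hadj] at d2
  simp only [ContinuousLinearMap.comp_apply, add_apply, smul_apply, map_smul, zero_apply,
    Complex.conj_I] at d1 d2
  simp only [ContinuousLinearMap.comp_apply, zero_apply]
  have d3 : Complex.I • ((adjoint A) (B x) - (adjoint B) (A x)) = 0 := by
    rw [smul_sub, ← d2, neg_smul, sub_eq_add_neg]
  have d4 : (adjoint A) (B x) - (adjoint B) (A x) = 0 := by
    rcases smul_eq_zero.1 d3 with h7 | h7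
    · exact absurd h7 Complex.I_ne_zero
    · exact h7
  have d5 : (2 : ℂ) • (adjoint A) (B x) = 0 := by
    rw [two_smul]
    have := congrArg₂ (· + ·) d1 d4
    simp only [add_zero] at this
    rw [← this]
    abel
  rcases smul_eq_zero.1 d5 with h7 | h7
  · norm_num at h7
  · exact h7

theorem cross_zero_gt {A B : H →L[ℂ] K} (hA : IsCompactOperator A) (hB : IsCompactOperator B)
    {p : ℝ} (hp : 2 < p)
    (hN : ∀ α β : ℂ, trPow p (α • A + β • B) = ‖α‖ₑ ^ p + ‖β‖ₑ ^ p) :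
    B ∘L adjoint A = 0 := by
  obtain ⟨ι, b, hb⟩ := exists_singBasis A (compact_star_mul hA)
  have hp0 : 0 < p := by linarith
  have z0 : (0 : ℝ≥0∞) ^ p = 0 := ENNReal.zero_rpow_of_pos hp0
  refine comp_adjoint_zero (b := b) (vanish_gt hA hB hp ?_ ?_ hb)
  · have := hN 1 0
    rwa [one_smul, zero_smul, add_zero, enorm_one, ENNReal.one_rpow, enorm_zero, z0, add_zero] at this
  · intro t ht0 ht1
    have e0 : ‖(t : ℂ)‖ₑ = ENNReal.ofReal t := by
      rw [← ofReal_norm, Complex.norm_real, Real.norm_of_nonneg ht0.le]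
    have e1 := hN 1 t
    have e2 := hN 1 (-t)
    rw [one_smul, enorm_one, ENNReal.one_rpow, e0] at e1
    rw [one_smul, neg_smul, enorm_one, enorm_neg, ENNReal.one_rpow, e0, ← sub_eq_add_neg] at e2
    rw [e1, e2, two_mul]

theorem hN_adjoint {A B : H →L[ℂ] K} {p : ℝ} (hp0 : 0 < p)
    (hN : ∀ α β : ℂ, trPow p (α • A + β • B) = ‖α‖ₑ ^ p + ‖β‖ₑ ^ p) (α β : ℂ) :
    trPow p (α • adjoint A + β • adjoint B) = ‖α‖ₑ ^ p + ‖β‖ₑ ^ p := by
  have h := hN (starRingEnd ℂ α) (starRingEnd ℂ β)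
  rw [← trPow_adjoint _ hp0, map_add, LinearIsometryEquiv.map_smulₛₗ,
    LinearIsometryEquiv.map_smulₛₗ, Complex.conj_conj, Complex.conj_conj] at h
  rw [h]
  congr 2
  · rw [← ofReal_norm, ← ofReal_norm, RCLike.norm_conj]
  · rw [← ofReal_norm, ← ofReal_norm, RCLike.norm_conj]

/-- If `A, B` span isometrically the two-dimensional `ℓ^p`, `p ≠ 2`, then they are disjoint. -/
theorem disjoint_of_norm {A B : H →L[ℂ] K} (hA : IsCompactOperator A) (hB : IsCompactOperator B)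
    {p : ℝ} (hp0 : 0 < p) (hp : p ≠ 2)
    (hN : ∀ α β : ℂ, trPow p (α • A + β • B) = ‖α‖ₑ ^ p + ‖β‖ₑ ^ p) :
    adjoint A ∘L B = 0 ∧ B ∘L adjoint A = 0 := by
  rcases lt_or_gt_of_ne hp with h | h
  · refine ⟨cross_zero_lt hA hB hp0 h hN, ?_⟩
    have h1 := cross_zero_lt (compact_adjoint hA) (compact_adjoint hB) hp0 h (hN_adjoint hp0 hN)
    have h2 := congrArg adjoint h1
    rw [adjoint_comp, adjoint_adjoint, adjoint_adjoint, map_zero] at h2
    exact h2
  · refine ⟨?_, cross_zero_gt hA hB h hN⟩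
    have h1 := cross_zero_gt (compact_adjoint hA) (compact_adjoint hB) h (hN_adjoint hp0 hN)
    have h2 := congrArg adjoint h1
    rw [adjoint_comp, adjoint_adjoint, adjoint_adjoint, map_zero] at h2
    exact h2

end Pool.Agent.Helper872.Sch
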